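import Mathlib

open Set MeasureTheory

namespace Pool.Agent.Results.MP_68eddd_an.FullBranchCounterexample

/-- The data of an increasing piecewise Mobius map on the compact interval `[A, B]`:
subintervals `[l i, r i]` covering `[A, B]` with null pairwise intersections, matrices
`M i` of determinant one with lower left entry nonnegative, such that the branch
`x ↦ (a x + b) / (c x + d)` is defined on `[l i, r i]`, maps it into `[A, B]`, the images
of the branches cover `[A, B]`, and the expansion and boundedness conditions hold. -/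
structure MobiusSystem (ι : Type) where
  A : ℝ
  B : ℝ
  hAB : A < B
  l : ι → ℝ
  r : ι → ℝ
  hlr : ∀ i, l i ≤ r i
  M : ι → Matrix.SpecialLinearGroup (Fin 2) ℝ
  cover : (⋃ i, Icc (l i) (r i)) = Icc A B
  overlap : ∀ i j, i ≠ j → volume (Icc (l i) (r i) ∩ Icc (l j) (r j)) = 0
  c_nonneg : ∀ i, 0 ≤ (M i).1 1 0
  defined : ∀ i, ∀ x ∈ Icc (l i) (r i), (M i).1 1 0 * x + (M i).1 1 1 ≠ 0
  maps : ∀ i, ∀ x ∈ Icc (l i) (r i),
    ((M i).1 0 0 * x + (M i).1 0 1) / ((M i).1 1 0 * x + (M i).1 1 1) ∈ Icc A B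
  onto : (⋃ i, (fun x : ℝ => ((M i).1 0 0 * x + (M i).1 0 1) /
    ((M i).1 1 0 * x + (M i).1 1 1)) '' Icc (l i) (r i)) = Icc A B
  expansion : ∃ k < 1, ∀ i, ∀ x ∈ Icc (l i) (r i), ((M i).1 1 0 * x + (M i).1 1 1) ^ 2 ≤ k
  bounded : ∃ C : ℝ, ∀ i, ∀ x ∈ Icc (l i) (r i),
    |(M i).1 1 0 * ((M i).1 1 0 * x + (M i).1 1 1)| ≤ C

namespace MobiusSystem

variable {ι : Type} (S : MobiusSystem ι)

/-- The branch `x ↦ (a x + b) / (c x + d)`. -/
noncomputable def T (i : ι) (x : ℝ) : ℝ :=
  ((S.M i).1 0 0 * x + (S.M i).1 0 1) / ((S.M i).1 1 0 * x + (S.M i).1 1 1)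

/-- The skew branch `(x, y) ↦ (T x, (c x + d)² y - c (c x + d))`. -/
noncomputable def skew (i : ι) (p : ℝ × ℝ) : ℝ × ℝ :=
  (S.T i p.1, ((S.M i).1 1 0 * p.1 + (S.M i).1 1 1) ^ 2 * p.2 -
    (S.M i).1 1 0 * ((S.M i).1 1 0 * p.1 + (S.M i).1 1 1))

/-- The image of `K` under the piecewise skew map: the union over `i` of the images under
the `i`-th skew branch of the part of `K` above `[l i, r i]`. -/
def image (K : Set (ℝ × ℝ)) : Set (ℝ × ℝ) :=
  ⋃ i, S.skew i '' (K ∩ Icc (S.l i) (S.r i) ×ˢ univ)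

/-- `K` is a compact set projecting onto `[A, B]` and equal to the closure of its image. -/
def IsDomain (K : Set (ℝ × ℝ)) : Prop :=
  IsCompact K ∧ Prod.fst '' K = Icc S.A S.B ∧ K = closure (S.image K)

lemma continuousOn_skew (i : ι) : ContinuousOn (S.skew i) (Icc (S.l i) (S.r i) ×ˢ univ) := by
  unfold skew T
  apply ContinuousOn.prodMk
  · apply ContinuousOn.div
    · fun_prop
    · fun_prop
    · intro p hp
      exact S.defined i p.1 hp.1
  · fun_prop

lemma isCompact_piece {K : Set (ℝ × ℝ)} (hK : IsCompact K) (i : ι) :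
    IsCompact (S.skew i '' (K ∩ Icc (S.l i) (S.r i) ×ˢ univ)) := by
  apply IsCompact.image_of_continuousOn
  · exact hK.inter_right (isClosed_Icc.prod isClosed_univ)
  · exact (S.continuousOn_skew i).mono inter_subset_right

lemma closure_image [Finite ι] {K : Set (ℝ × ℝ)} (hK : IsCompact K) :
    closure (S.image K) = S.image K := by
  apply IsClosed.closure_eq
  unfold image
  exact isClosed_iUnion_of_finite fun i => (S.isCompact_piece hK i).isClosed

/-- With finitely many branches, one invariant set is contained in any other. -/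
lemma subset_of_isDomain [Finite ι] {K₁ K₂ : Set (ℝ × ℝ)} (h₁ : S.IsDomain K₁)
    (h₂ : S.IsDomain K₂) : K₁ ⊆ K₂ := by
  obtain ⟨hc₁, hp₁, he₁⟩ := h₁
  obtain ⟨hc₂, hp₂, he₂⟩ := h₂
  rw [S.closure_image hc₁] at he₁
  rw [S.closure_image hc₂] at he₂
  obtain ⟨k, hk1, hk⟩ := S.expansion
  obtain ⟨R₁, hR₁⟩ := (hc₁.isBounded).exists_norm_le
  obtain ⟨R₂, hR₂⟩ := (hc₂.isBounded).exists_norm_le
  have hk0 : 0 ≤ k := by
    have hA : S.A ∈ Icc S.A S.B := ⟨le_refl _, S.hAB.le⟩
    rw [← S.cover] at hA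
    obtain ⟨i, hi⟩ := mem_iUnion.1 hA
    exact le_trans (sq_nonneg _) (hk i _ hi)
  have key : ∀ n : ℕ, ∀ p ∈ K₁, ∃ y₂, (p.1, y₂) ∈ K₂ ∧ |p.2 - y₂| ≤ k ^ n * (R₁ + R₂) := by
    intro n
    induction n with
    | zero =>
      intro p hp
      have h1 : p.1 ∈ Prod.fst '' K₂ := by
        rw [hp₂, ← hp₁]
        exact mem_image_of_mem _ hp
      obtain ⟨q, hq, hqp⟩ := h1
      refine ⟨q.2, ?_, ?_⟩
      · rw [← hqp]
        exact hq
      · have e1 : |p.2| ≤ R₁ := le_trans (norm_snd_le p) (hR₁ p hp)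
        have e2 : |q.2| ≤ R₂ := le_trans (norm_snd_le q) (hR₂ q hq)
        have e3 : |p.2 - q.2| ≤ |p.2| + |q.2| := abs_sub _ _
        simp only [pow_zero, one_mul]
        linarith
    | succ n ih =>
      intro p hp
      rw [he₁] at hp
      obtain ⟨i, q, hq, rfl⟩ := mem_iUnion.1 hp
      obtain ⟨y₂, hy₂, hd⟩ := ih q hq.1
      refine ⟨(S.skew i (q.1, y₂)).2, ?_, ?_⟩
      · rw [he₂]
        refine mem_iUnion.2 ⟨i, (q.1, y₂), ⟨hy₂, ?_⟩, ?_⟩
        · exact ⟨hq.2.1, mem_univ _⟩
        · rfl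
      · have h3 := hk i q.1 hq.2.1
        have h4 : (S.skew i q).2 - (S.skew i (q.1, y₂)).2 =
            ((S.M i).1 1 0 * q.1 + (S.M i).1 1 1) ^ 2 * (q.2 - y₂) := by
          simp only [skew]
          ring
        rw [h4, abs_mul, abs_of_nonneg (sq_nonneg _), pow_succ]
        calc ((S.M i).1 1 0 * q.1 + (S.M i).1 1 1) ^ 2 * |q.2 - y₂|
            ≤ k * (k ^ n * (R₁ + R₂)) := by
              apply mul_le_mul h3 hd (abs_nonneg _) hk0
          _ = k ^ n * k * (R₁ + R₂) := by ring
  intro p hp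
  have hcl : IsClosed K₂ := hc₂.isClosed
  rw [← hcl.closure_eq]
  choose f hf1 hf2 using fun n => key n p hp
  have hlim : Filter.Tendsto (fun n => (p.1, f n)) Filter.atTop (nhds p) := by
    have h5 : Filter.Tendsto (fun n : ℕ => k ^ n * (R₁ + R₂)) Filter.atTop (nhds 0) := by
      have := (tendsto_pow_atTop_nhds_zero_of_lt_one hk0 hk1).mul_const (R₁ + R₂)
      simpa using this
    have h6 : Filter.Tendsto f Filter.atTop (nhds p.2) := by
      rw [tendsto_iff_dist_tendsto_zero]
      apply squeeze_zero (fun _ => dist_nonneg) _ h5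
      intro n
      rw [dist_comm, Real.dist_eq]
      exact hf2 n
    have h7 : Filter.Tendsto (fun _ : ℕ => p.1) Filter.atTop (nhds p.1) := tendsto_const_nhds
    exact h7.prodMk_nhds h6
  exact mem_closure_of_tendsto hlim (Filter.Eventually.of_forall hf1)

end MobiusSystem

/-! ### The example -/

lemma image_mobius (a b c d l r : ℝ) (hlr : l ≤ r) (hl : 0 < c * l + d) (hr : 0 < c * r + d)
    (hdet : 0 < a * d - b * c) :
    (fun x : ℝ => (a * x + b) / (c * x + d)) '' Icc l r =
      Icc ((a * l + b) / (c * l + d)) ((a * r + b) / (c * r + d)) := by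
  have hpos : ∀ x ∈ Icc l r, 0 < c * x + d := by
    intro x hx
    rcases le_total 0 c with hc | hc
    · nlinarith [mul_le_mul_of_nonneg_left hx.1 hc]
    · nlinarith [mul_le_mul_of_nonpos_left hx.2 hc]
  have hmono : ∀ x ∈ Icc l r, ∀ y ∈ Icc l r, x ≤ y →
      (a * x + b) / (c * x + d) ≤ (a * y + b) / (c * y + d) := by
    intro x hx y hy hxy
    rw [div_le_div_iff₀ (hpos x hx) (hpos y hy)]
    nlinarith [mul_nonneg (sub_nonneg.2 hxy) hdet.le]
  apply Subset.antisymm
  · rintro _ ⟨x, hx, rfl⟩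
    exact ⟨hmono l ⟨le_refl _, hlr⟩ x hx hx.1, hmono x hx r ⟨hlr, le_refl _⟩ hx.2⟩
  · apply intermediate_value_Icc hlr
    apply ContinuousOn.div
    · fun_prop
    · fun_prop
    · intro x hx
      exact (hpos x hx).ne'

/-- unnormalised entries -/
noncomputable def ea : Fin 4 → ℝ := ![10, 7, 10, 7]
noncomputable def eb : Fin 4 → ℝ := ![0, -1, -5, -9 / 2]
noncomputable def ed : Fin 4 → ℝ := ![1, 1, -1 / 2, -1 / 2]
noncomputable def el : Fin 4 → ℝ := ![0, 1 / 7, 1 / 2, 9 / 14]
noncomputable def er : Fin 4 → ℝ := ![1 / 7, 1 / 2, 9 / 14, 1]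

lemma sq10 : (√10 : ℝ) * √10 = 10 := Real.mul_self_sqrt (by norm_num)
lemma pos10 : (0 : ℝ) < √10 := Real.sqrt_pos.2 (by norm_num)

lemma det10 (i : Fin 4) : ea i * ed i - eb i * 3 = 10 := by
  fin_cases i <;> norm_num [ea, eb, ed]

noncomputable def mat (i : Fin 4) : Matrix.SpecialLinearGroup (Fin 2) ℝ :=
  ⟨!![ea i / √10, eb i / √10; 3 / √10, ed i / √10], by
    rw [Matrix.det_fin_two_of]
    have h := det10 i
    have h1 := sq10
    have h2 := pos10.ne'
    field_simp
    nlinarith⟩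

lemma mat00 (i : Fin 4) : (mat i).1 0 0 = ea i / √10 := rfl
lemma mat01 (i : Fin 4) : (mat i).1 0 1 = eb i / √10 := rfl
lemma mat10 (i : Fin 4) : (mat i).1 1 0 = 3 / √10 := rfl
lemma mat11 (i : Fin 4) : (mat i).1 1 1 = ed i / √10 := rfl

lemma den_eq (i : Fin 4) (x : ℝ) :
    (mat i).1 1 0 * x + (mat i).1 1 1 = (3 * x + ed i) / √10 := by
  rw [mat10, mat11]; ring

lemma branch_eq (i : Fin 4) (x : ℝ) :
    ((mat i).1 0 0 * x + (mat i).1 0 1) / ((mat i).1 1 0 * x + (mat i).1 1 1) =
      (ea i * x + eb i) / (3 * x + ed i) := by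
  rw [den_eq, mat00, mat01]
  have h2 := pos10.ne'
  have : ea i / √10 * x + eb i / √10 = (ea i * x + eb i) / √10 := by ring
  rw [this, div_div_div_cancel_right₀ h2]

lemma den_bounds (i : Fin 4) (x : ℝ) (hx : x ∈ Icc (el i) (er i)) :
    0 < 3 * x + ed i ∧ 3 * x + ed i ≤ 5 / 2 := by
  fin_cases i <;> simp only [el, er, ed, mem_Icc] at hx ⊢ <;>
    simp at hx ⊢ <;> constructor <;> linarith [hx.1, hx.2]

lemma full_branch (i : Fin 4) :
    (fun x : ℝ => (ea i * x + eb i) / (3 * x + ed i)) '' Icc (el i) (er i) = Icc 0 1 := by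
  have hd := det10 i
  have hle : el i ≤ er i := by
    fin_cases i <;> norm_num [el, er]
  rw [image_mobius (ea i) (eb i) 3 (ed i) (el i) (er i) hle
    (den_bounds i _ ⟨le_refl _, hle⟩).1 (den_bounds i _ ⟨hle, le_refl _⟩).1 (by linarith)]
  congr 1
  · fin_cases i <;> norm_num [ea, eb, ed, el]
  · fin_cases i <;> norm_num [ea, eb, ed, er]

lemma cover4 : (⋃ i : Fin 4, Icc (el i) (er i)) = Icc (0 : ℝ) 1 := by
  ext x
  simp only [mem_iUnion, mem_Icc, Fin.exists_fin_succ, el, er]
  simp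
  constructor
  · rintro (h | h | h | h) <;> constructor <;> linarith [h.1, h.2]
  · rintro ⟨h0, h1⟩
    rcases le_total x (1 / 7) with h | h
    · left; constructor <;> linarith
    rcases le_total x (1 / 2) with h' | h'
    · right; left; constructor <;> linarith
    rcases le_total x (9 / 14) with h'' | h''
    · right; right; left; constructor <;> linarith
    · right; right; right; constructor <;> linarith

lemma overlap4 (i j : Fin 4) (hij : i ≠ j) :
    volume (Icc (el i) (er i) ∩ Icc (el j) (er j)) = 0 := by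
  have key : ∀ i j : Fin 4, i < j → volume (Icc (el i) (er i) ∩ Icc (el j) (er j)) = 0 := by
    intro i j hij
    have hle : er i ≤ el j := by
      fin_cases i <;> fin_cases j <;> simp [el, er] at hij ⊢ <;> norm_num
    apply measure_mono_null (t := {er i})
    · rintro x ⟨hx, hy⟩
      exact le_antisymm hx.2 (hle.trans hy.1)
    · simp
  rcases lt_or_gt_of_ne hij with h | h
  · exact key i j h
  · rw [inter_comm]
    exact key j i h

/-- The four-branch full-branch system on `[0, 1]`. -/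
noncomputable def sys : MobiusSystem (Fin 4) where
  A := 0
  B := 1
  hAB := one_pos
  l := el
  r := er
  hlr := by
    intro i
    fin_cases i <;> norm_num [el, er]
  M := mat
  cover := cover4
  overlap := overlap4
  c_nonneg := by
    intro i
    rw [mat10]
    positivity
  defined := by
    intro i x hx
    rw [den_eq]
    exact (div_pos (den_bounds i x hx).1 pos10).ne'
  maps := by
    intro i x hx
    rw [branch_eq, ← full_branch i]
    exact mem_image_of_mem _ hx
  onto := by
    simp only [branch_eq, full_branch]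
    exact iUnion_const _
  expansion := by
    refine ⟨5 / 8, by norm_num, ?_⟩
    intro i x hx
    obtain ⟨h1, h2⟩ := den_bounds i x hx
    rw [den_eq, div_pow, Real.sq_sqrt (by norm_num)]
    nlinarith
  bounded := by
    refine ⟨3 / 4, ?_⟩
    intro i x hx
    obtain ⟨h1, h2⟩ := den_bounds i x hx
    rw [den_eq, mat10]
    have h3 : 3 / √10 * ((3 * x + ed i) / √10) = 3 * (3 * x + ed i) / 10 := by
      rw [div_mul_div_comm, sq10]
    rw [h3, abs_of_pos (by positivity)]
    linarith

/-- fibre set in the coordinate `w` -/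
def W : Set ℝ := Icc (3 / 2) 2 ∪ Icc (5 / 2) 3

noncomputable def phi (p : ℝ × ℝ) : ℝ × ℝ := (p.1, (p.1 - p.2)⁻¹)

/-- The invariant set -/
noncomputable def K0 : Set (ℝ × ℝ) := phi '' (Icc 0 1 ×ˢ W)

lemma W_gt {w : ℝ} (hw : w ∈ W) : 3 / 2 ≤ w := by
  rcases hw with h | h
  · exact h.1
  · linarith [h.1]

lemma compactW : IsCompact W := isCompact_Icc.union isCompact_Icc

lemma cont_phi {s : Set ℝ} (hs : s ⊆ Icc 0 1) : ContinuousOn phi (s ×ˢ W) := by
  unfold phi
  apply ContinuousOn.prodMk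
  · fun_prop
  · apply ContinuousOn.inv₀
    · fun_prop
    · rintro ⟨x, w⟩ ⟨hx, hw⟩
      have h1 := (hs hx).2
      have h2 := W_gt hw
      simp only at h1 h2 ⊢
      intro h
      linarith

lemma compactK : IsCompact K0 := by
  apply IsCompact.image_of_continuousOn
  · exact isCompact_Icc.prod compactW
  · exact cont_phi (Subset.refl _)

lemma denW (i : Fin 4) (w : ℝ) (hw : w ∈ W) : 0 < 3 * w + ed i := by
  have := W_gt hw
  fin_cases i <;> simp [ed] <;> linarith

/-- the image of `W` under the branches -/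
lemma imageW : (⋃ i : Fin 4, (fun w : ℝ => (ea i * w + eb i) / (3 * w + ed i)) '' W) = W := by
  have h : ∀ i : Fin 4, (fun w : ℝ => (ea i * w + eb i) / (3 * w + ed i)) '' W =
      Icc ((ea i * (3 / 2) + eb i) / (3 * (3 / 2) + ed i)) ((ea i * 2 + eb i) / (3 * 2 + ed i)) ∪
      Icc ((ea i * (5 / 2) + eb i) / (3 * (5 / 2) + ed i)) ((ea i * 3 + eb i) / (3 * 3 + ed i)) := by
    intro i
    have hd := det10 i
    rw [W, image_union]
    rw [image_mobius (ea i) (eb i) 3 (ed i) (3 / 2) 2 (by norm_num)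
      (denW i _ (Or.inl ⟨le_refl _, by norm_num⟩)) (denW i _ (Or.inl ⟨by norm_num, le_refl _⟩))
      (by linarith)]
    rw [image_mobius (ea i) (eb i) 3 (ed i) (5 / 2) 3 (by norm_num)
      (denW i _ (Or.inr ⟨le_refl _, by norm_num⟩)) (denW i _ (Or.inr ⟨by norm_num, le_refl _⟩))
      (by linarith)]
  simp only [h]
  ext x
  simp only [mem_iUnion, mem_union, mem_Icc, Fin.exists_fin_succ, W, ea, eb, ed]
  simp
  norm_num
  constructor
  · rintro ((h | h) | (h | h) | (h | h) | (h | h))
    · right; constructor <;> linarith [h.1, h.2]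
    · right; constructor <;> linarith [h.1, h.2]
    · left; constructor <;> linarith [h.1, h.2]
    · left; constructor <;> linarith [h.1, h.2]
    · right; constructor <;> linarith [h.1, h.2]
    · right; constructor <;> linarith [h.1, h.2]
    · left; constructor <;> linarith [h.1, h.2]
    · left; constructor <;> linarith [h.1, h.2]
  · rintro (⟨h0, h1⟩ | ⟨h0, h1⟩)
    · rcases le_total x (19 / 11) with h | h
      · right; right; right; left; constructor <;> linarith
      rcases le_total x (13 / 7) with h' | h'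
      · right; left; left; constructor <;> linarith
      rcases le_total x (33 / 17) with h'' | h''
      · right; right; right; right; constructor <;> linarith
      · right; left; right; constructor <;> linarith
    · rcases le_total x (30 / 11) with h | h
      · right; right; left; left; constructor <;> linarith
      rcases le_total x (20 / 7) with h' | h'
      · left; left; constructor <;> linarith
      rcases le_total x (50 / 17) with h'' | h''
      · right; right; left; right; constructor <;> linarith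
      · left; right; constructor <;> linarith

lemma skew_phi (i : Fin 4) (x w : ℝ) (hx : 0 < 3 * x + ed i) (hw : 0 < 3 * w + ed i)
    (hxw : x < w) :
    sys.skew i (phi (x, w)) =
      phi ((ea i * x + eb i) / (3 * x + ed i), (ea i * w + eb i) / (3 * w + ed i)) := by
  have hd := det10 i
  have h10 := sq10
  have hp := pos10
  simp only [MobiusSystem.skew, MobiusSystem.T, phi]
  refine Prod.ext ?_ ?_
  · exact branch_eq i x
  · show ((mat i).1 1 0 * x + (mat i).1 1 1) ^ 2 * (x - w)⁻¹ -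
      (mat i).1 1 0 * ((mat i).1 1 0 * x + (mat i).1 1 1) = _
    rw [den_eq, mat10, div_pow, Real.sq_sqrt (by norm_num)]
    have h3 : 3 / √10 * ((3 * x + ed i) / √10) = 3 * (3 * x + ed i) / 10 := by
      rw [div_mul_div_comm, sq10]
    rw [h3]
    have hne : x - w ≠ 0 := by linarith
    have h4 : (ea i * x + eb i) / (3 * x + ed i) - (ea i * w + eb i) / (3 * w + ed i) =
        10 * (x - w) / ((3 * x + ed i) * (3 * w + ed i)) := by
      rw [div_sub_div _ _ hx.ne' hw.ne']
      congr 1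
      linear_combination (x - w) * hd
    rw [h4, inv_div]
    field_simp
    ring

lemma piece (i : Fin 4) :
    sys.skew i '' (K0 ∩ Icc (sys.l i) (sys.r i) ×ˢ univ) =
      phi '' (Icc 0 1 ×ˢ ((fun w : ℝ => (ea i * w + eb i) / (3 * w + ed i)) '' W)) := by
  apply Subset.antisymm
  · rintro _ ⟨p, ⟨⟨⟨x, w⟩, ⟨hx, hw⟩, rfl⟩, hp⟩, rfl⟩
    have hxi : x ∈ Icc (el i) (er i) := hp.1
    have h1 := (den_bounds i x hxi).1
    have h2 := denW i w hw
    have h3 : x < w := by
      have := W_gt hw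
      have := hx.2
      simp only at this
      linarith
    rw [skew_phi i x w h1 h2 h3]
    refine mem_image_of_mem _ ⟨?_, mem_image_of_mem _ hw⟩
    rw [← full_branch i]
    exact mem_image_of_mem _ hxi
  · rintro _ ⟨⟨u, v⟩, ⟨hu, hv⟩, rfl⟩
    simp only at hu hv
    rw [← full_branch i] at hu
    obtain ⟨x, hx, rfl⟩ := hu
    obtain ⟨w, hw, rfl⟩ := hv
    have h1 := (den_bounds i x hx).1
    have h2 := denW i w hw
    have hx01 : x ∈ Icc (0 : ℝ) 1 := by
      rw [← cover4]
      exact mem_iUnion.2 ⟨i, hx⟩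
    have h3 : x < w := by
      have := W_gt hw
      have := hx01.2
      linarith
    refine ⟨phi (x, w), ⟨mem_image_of_mem _ ⟨hx01, hw⟩, ⟨hx, mem_univ _⟩⟩, ?_⟩
    exact skew_phi i x w h1 h2 h3

lemma image_K0 : sys.image K0 = K0 := by
  unfold MobiusSystem.image
  simp only [piece]
  rw [← image_iUnion, ← prod_iUnion, imageW]
  rfl

lemma fst_K0 : Prod.fst '' K0 = Icc (0 : ℝ) 1 := by
  unfold K0
  rw [image_image]
  simp only [phi]
  apply Subset.antisymm
  · rintro _ ⟨⟨x, w⟩, ⟨hx, _⟩, rfl⟩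
    exact hx
  · intro x hx
    exact ⟨(x, 2), ⟨hx, Or.inl ⟨by norm_num, le_refl _⟩⟩, rfl⟩

lemma domain_K0 : sys.IsDomain K0 := by
  refine ⟨compactK, fst_K0, ?_⟩
  rw [image_K0, compactK.isClosed.closure_eq]

lemma rect_subset : Icc (0 : ℝ) (1 / 10) ×ˢ Icc (-13 / 20 : ℝ) (-11 / 20) ⊆ K0 := by
  rintro ⟨x, y⟩ ⟨⟨hx0, hx1⟩, ⟨hy0, hy1⟩⟩
  simp only at hx0 hx1 hy0 hy1
  have hy : y < 0 := by linarith
  have hyi : y * y⁻¹ = 1 := mul_inv_cancel₀ hy.ne
  have hyn : y⁻¹ < 0 := inv_lt_zero.2 hy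
  refine ⟨(x, x - y⁻¹), ⟨⟨hx0, by linarith⟩, Or.inl ⟨?_, ?_⟩⟩, ?_⟩
  · have : y⁻¹ ≤ -3 / 2 := by
      by_contra hc
      push Not at hc
      nlinarith
    simp only
    linarith
  · have : (-19 / 10 : ℝ) ≤ y⁻¹ := by
      by_contra hc
      push Not at hc
      nlinarith
    simp only
    linarith
  · simp [phi]

lemma volume_pos : 0 < volume K0 := by
  refine lt_of_lt_of_le ?_ (measure_mono rect_subset)
  rw [Measure.volume_eq_prod, Measure.prod_prod, Real.volume_Icc, Real.volume_Icc]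
  simp
  norm_num

lemma not_connected : ¬ IsConnected K0 := by
  intro h
  have hcont : ContinuousOn (fun p : ℝ × ℝ => p.1 - p.2⁻¹) K0 := by
    apply ContinuousOn.sub
    · fun_prop
    · apply ContinuousOn.inv₀
      · fun_prop
      · rintro _ ⟨⟨x, w⟩, ⟨hx, hw⟩, rfl⟩
        have h1 := W_gt hw
        have h2 := hx.2
        simp only at h1 h2
        simp only [phi]
        apply inv_ne_zero
        intro h; linarith
  have h1 := (h.isPreconnected.image _ hcont).ordConnected
  have hval : ∀ x ∈ Icc (0 : ℝ) 1, ∀ w ∈ W,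
      (fun p : ℝ × ℝ => p.1 - p.2⁻¹) (phi (x, w)) = w := by
    intro x _ w _
    simp [phi]
  have h2 : (2 : ℝ) ∈ (fun p : ℝ × ℝ => p.1 - p.2⁻¹) '' K0 := by
    refine ⟨phi (0, 2), mem_image_of_mem _ ⟨⟨le_refl _, zero_le_one⟩, Or.inl ⟨by norm_num, le_refl _⟩⟩, ?_⟩
    exact hval 0 ⟨le_refl _, zero_le_one⟩ 2 (Or.inl ⟨by norm_num, le_refl _⟩)
  have h3 : (5 / 2 : ℝ) ∈ (fun p : ℝ × ℝ => p.1 - p.2⁻¹) '' K0 := by
    refine ⟨phi (0, 5 / 2), mem_image_of_mem _ ⟨⟨le_refl _, zero_le_one⟩, Or.inr ⟨le_refl _, by norm_num⟩⟩, ?_⟩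
    exact hval 0 ⟨le_refl _, zero_le_one⟩ (5 / 2) (Or.inr ⟨le_refl _, by norm_num⟩)
  have h4 : (9 / 4 : ℝ) ∈ (fun p : ℝ × ℝ => p.1 - p.2⁻¹) '' K0 :=
    h1.out h2 h3 ⟨by norm_num, by norm_num⟩
  obtain ⟨_, ⟨⟨x, w⟩, ⟨hx, hw⟩, rfl⟩, he⟩ := h4
  rw [hval x hx w hw] at he
  subst he
  rcases hw with h | h
  · have := h.2
    norm_num at this
  · have := h.1
    norm_num at this

/-- There is an increasing piecewise Mobius map of a compact interval with four branches,
each mapping its interval onto the whole interval, whose invariant compact set `K` is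
unique, has positive measure, satisfies the null condition, and is not connected. -/
theorem result : ∃ S : MobiusSystem (Fin 4),
    (∀ i, S.T i '' Icc (S.l i) (S.r i) = Icc S.A S.B) ∧
    ∃ K : Set (ℝ × ℝ), S.IsDomain K ∧ (∀ K', S.IsDomain K' → K' = K) ∧
      0 < volume K ∧ volume (K \ S.image K) = 0 ∧ ¬ IsConnected K := by
  refine ⟨sys, ?_, K0, domain_K0, ?_, volume_pos, ?_, not_connected⟩
  · intro i
    have : sys.T i = fun x : ℝ => (ea i * x + eb i) / (3 * x + ed i) := by
      funext x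
      exact branch_eq i x
    rw [this]
    exact full_branch i
  · intro K' hK'
    exact Subset.antisymm (sys.subset_of_isDomain hK' domain_K0)
      (sys.subset_of_isDomain domain_K0 hK')
  · rw [image_K0, sdiff_self]
    simp

end Pool.Agent.Results.MP_68eddd_an.FullBranchCounterexample
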